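import Pool.Agent.V5helper50.SP.Stm

/-! # Project SP, job BG: the broad-narrow inequality -/

set_option autoImplicit false

open Finset

namespace Pool.Agent.V5helper31.SP

open Pool.Agent.V5helper50.SP

/-- the exponential sum -/
noncomputable def Sx (a : ℕ → ℤ) (J : Finset ℕ) (θ : ℝ) : ℂ :=
  ∑ x ∈ J, Complex.exp (2 * Real.pi * Complex.I * θ * (a x))

lemma orth (N : ℕ) (hN : 0 < N) (h : ℤ) (hh : |h| < N) :
    ∑ j ∈ range N, Complex.exp (2 * Real.pi * Complex.I * (((j : ℝ) / N : ℝ) : ℂ) * h) =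
      if h = 0 then (N : ℂ) else 0 := by
  have hζ := Complex.isPrimitiveRoot_exp N hN.ne'
  set ζ := Complex.exp (2 * Real.pi * Complex.I / N) with hζd
  have h1 : ∀ j : ℕ, Complex.exp (2 * Real.pi * Complex.I * (((j : ℝ) / N : ℝ) : ℂ) * h) =
      (ζ ^ h) ^ j := by
    intro j
    rw [hζd, ← Complex.exp_int_mul, ← Complex.exp_nat_mul]
    congr 1
    push_cast
    ring
  simp only [h1]
  split_ifs with h0
  · simp [h0]
  · have hw : ζ ^ h ≠ 1 := by
      intro hw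
      rw [hζ.zpow_eq_one_iff_dvd] at hw
      exact h0 (Int.eq_zero_of_abs_lt_dvd hw hh)
    have hN1 : (ζ ^ h) ^ N = 1 := by
      rw [← zpow_natCast, ← zpow_mul, mul_comm, zpow_mul, zpow_natCast, hζ.pow_eq_one, one_zpow]
    have h2 := mul_geom_sum (ζ ^ h) N
    rw [hN1, sub_self] at h2
    exact (mul_eq_zero.1 h2).resolve_left (sub_ne_zero.2 hw)

lemma cnt_eq {k : ℕ} (a : ℕ → ℤ) (I : Fin k → Finset ℕ) (N : ℕ) (hN : 0 < N)
    (hb : ∀ x ∈ Fintype.piFinset I, ∀ y ∈ Fintype.piFinset I,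
      |∑ l, a (x l) - ∑ l, a (y l)| < N) :
    ∑ j ∈ range N, ∏ l, ‖Sx a (I l) ((j : ℝ) / N)‖ ^ 2 = (N : ℝ) * cnt a I := by
  classical
  have h1 : ∀ θ : ℝ, ((∏ l, ‖Sx a (I l) θ‖ ^ 2 : ℝ) : ℂ) =
      ∑ x ∈ Fintype.piFinset I, ∑ y ∈ Fintype.piFinset I,
      Complex.exp (2 * Real.pi * Complex.I * θ * ((∑ l, a (x l) - ∑ l, a (y l) : ℤ) : ℂ)) := by
    intro θ
    have h2 : ∏ l, Sx a (I l) θ = ∑ x ∈ Fintype.piFinset I,
        Complex.exp (2 * Real.pi * Complex.I * θ * ((∑ l, a (x l) : ℤ) : ℂ)) := by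
      unfold Sx
      rw [Finset.prod_univ_sum]
      refine Finset.sum_congr rfl fun x _ => ?_
      rw [← Complex.exp_sum, ← Finset.mul_sum]
      push_cast
      rfl
    have h3 : ((∏ l, ‖Sx a (I l) θ‖ ^ 2 : ℝ) : ℂ) =
        (∏ l, Sx a (I l) θ) * (starRingEnd ℂ) (∏ l, Sx a (I l) θ) := by
      rw [Complex.mul_conj, Complex.normSq_eq_norm_sq, norm_prod, ← Finset.prod_pow]
    rw [h3, h2, map_sum, Finset.sum_mul_sum]
    refine Finset.sum_congr rfl fun x _ => Finset.sum_congr rfl fun y _ => ?_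
    rw [← Complex.exp_conj, ← Complex.exp_add]
    congr 1
    simp only [map_mul, Complex.conj_ofReal, Complex.conj_I, map_ofNat, map_intCast]
    push_cast
    ring
  have h4 : ((∑ j ∈ range N, ∏ l, ‖Sx a (I l) ((j : ℝ) / N)‖ ^ 2 : ℝ) : ℂ) =
      ((N : ℝ) * cnt a I : ℝ) := by
    rw [Complex.ofReal_sum]
    simp only [h1]
    rw [Finset.sum_comm]
    have h5 : ∀ x ∈ Fintype.piFinset I, ∑ j ∈ range N, ∑ y ∈ Fintype.piFinset I,
        Complex.exp (2 * Real.pi * Complex.I * (((j : ℝ) / N : ℝ) : ℂ) *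
          ((∑ l, a (x l) - ∑ l, a (y l) : ℤ) : ℂ)) =
        ∑ y ∈ Fintype.piFinset I, if ∑ l, a (x l) = ∑ l, a (y l) then (N : ℂ) else 0 := by
      intro x hx
      rw [Finset.sum_comm]
      refine Finset.sum_congr rfl fun y hy => ?_
      rw [orth N hN _ (hb x hx y hy)]
      simp only [sub_eq_zero]
    rw [Finset.sum_congr rfl h5]
    have h6 : (cnt a I : ℂ) = ∑ x ∈ Fintype.piFinset I, ∑ y ∈ Fintype.piFinset I,
        if ∑ l, a (x l) = ∑ l, a (y l) then (1 : ℂ) else 0 := by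
      unfold cnt
      rw [Finset.card_filter, Finset.sum_product]
      push_cast
      refine Finset.sum_congr rfl fun x _ => Finset.sum_congr rfl fun y _ => ?_
      congr
    push_cast
    rw [h6, Finset.mul_sum]
    refine Finset.sum_congr rfl fun x _ => ?_
    rw [Finset.mul_sum]
    refine Finset.sum_congr rfl fun y _ => ?_
    split_ifs <;> simp
  exact_mod_cast h4

lemma pw (k M : ℕ) (hk : 1 ≤ k) (b : Fin M → ℝ) (hb : ∀ i, 0 ≤ b i) (T : ℝ) (hT : 0 ≤ T)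
    (hTb : T ≤ ∑ i, b i) :
    ∏ _l : Fin k, T ^ 2 ≤ (2 * (M : ℝ)) ^ (2 * k) * ∑ i ∈ (univ : Finset (Fin k → Fin M)).filter
      (fun i => ∀ l l' : Fin k, l < l' → (i l : ℕ) + 2 ≤ i l'), ∏ l, b (i l) ^ 2 +
    (6 * (k : ℝ)) ^ (2 * k) * ∑ i : Fin M, ∏ _l : Fin k, b i ^ 2 := by
  classical
  have hS1 : 0 ≤ ∑ i ∈ (univ : Finset (Fin k → Fin M)).filter
      (fun i => ∀ l l' : Fin k, l < l' → (i l : ℕ) + 2 ≤ i l'), ∏ l, b (i l) ^ 2 :=
    Finset.sum_nonneg fun i _ => Finset.prod_nonneg fun l _ => sq_nonneg _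
  have hS2 : 0 ≤ ∑ i : Fin M, ∏ _l : Fin k, b i ^ 2 :=
    Finset.sum_nonneg fun i _ => Finset.prod_nonneg fun l _ => sq_nonneg _
  rcases hT.eq_or_lt with h0 | hpos
  · rw [← h0]
    have h1 : ∏ _l : Fin k, (0 : ℝ) ^ 2 = 0 := by
      rw [Finset.prod_const, Finset.card_univ, Fintype.card_fin, zero_pow two_ne_zero,
        zero_pow (by omega)]
    rw [h1]
    positivity
  set B := (univ : Finset (Fin M)).filter (fun i => T ≤ 2 * M * b i) with hB
  by_cases hc : 2 * k - 1 ≤ B.card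
  · -- broad
    let i : Fin k → Fin M := fun l => B.orderEmbOfFin rfl ⟨2 * (l : ℕ), by have := l.2; omega⟩
    have hi : ∀ l, T ≤ 2 * M * b (i l) := fun l =>
      (Finset.mem_filter.1 (B.orderEmbOfFin_mem rfl _)).2
    have hsep : ∀ l l' : Fin k, l < l' → (i l : ℕ) + 2 ≤ i l' := by
      intro l l' hll
      have hl' := l'.2
      have hll' : (l : ℕ) < l' := hll
      have h1 : B.orderEmbOfFin rfl ⟨2 * (l : ℕ), by omega⟩ <
          B.orderEmbOfFin rfl ⟨2 * (l : ℕ) + 1, by omega⟩ :=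
        (B.orderEmbOfFin rfl).strictMono (by rw [Fin.mk_lt_mk]; omega)
      have h2 : B.orderEmbOfFin rfl ⟨2 * (l : ℕ) + 1, by omega⟩ <
          B.orderEmbOfFin rfl ⟨2 * (l' : ℕ), by omega⟩ :=
        (B.orderEmbOfFin rfl).strictMono (by rw [Fin.mk_lt_mk]; omega)
      rw [Fin.lt_def] at h1 h2
      show (B.orderEmbOfFin rfl ⟨2 * (l : ℕ), _⟩ : ℕ) + 2 ≤ (B.orderEmbOfFin rfl ⟨2 * (l' : ℕ), _⟩ : ℕ)
      omega
    have e1 : ∏ _l : Fin k, T ^ 2 ≤ ∏ l : Fin k, (2 * M * b (i l)) ^ 2 :=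
      Finset.prod_le_prod (fun _ _ => sq_nonneg _) (fun l _ => pow_le_pow_left₀ hT (hi l) 2)
    have e2 : ∏ l : Fin k, (2 * M * b (i l)) ^ 2 =
        (2 * (M : ℝ)) ^ (2 * k) * ∏ l, b (i l) ^ 2 := by
      rw [pow_mul]
      simp only [mul_pow, Finset.prod_mul_distrib, Finset.prod_const, Finset.card_univ,
        Fintype.card_fin]
    have e3 : ∏ l, b (i l) ^ 2 ≤ ∑ i ∈ (univ : Finset (Fin k → Fin M)).filter
      (fun i => ∀ l l' : Fin k, l < l' → (i l : ℕ) + 2 ≤ i l'), ∏ l, b (i l) ^ 2 :=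
      Finset.single_le_sum (f := fun i : Fin k → Fin M => ∏ l, b (i l) ^ 2)
        (fun i _ => Finset.prod_nonneg fun l _ => sq_nonneg _)
        (Finset.mem_filter.2 ⟨Finset.mem_univ i, hsep⟩)
    have e4 := mul_le_mul_of_nonneg_left e3 (show (0 : ℝ) ≤ (2 * (M : ℝ)) ^ (2 * k) by positivity)
    have e5 : 0 ≤ (6 * (k : ℝ)) ^ (2 * k) * ∑ i : Fin M, ∏ _l : Fin k, b i ^ 2 := by positivity
    linarith
  · -- narrow
    have hcard : (B.card : ℝ) ≤ 3 * k := by
      have : B.card ≤ 3 * k := by omega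
      exact_mod_cast this
    have h1 : ∑ i, b i = ∑ i ∈ B, b i +
        ∑ i ∈ (univ : Finset (Fin M)).filter (fun i => ¬ T ≤ 2 * M * b i), b i :=
      (Finset.sum_filter_add_sum_filter_not _ _ _).symm
    have h2 : ∑ i ∈ (univ : Finset (Fin M)).filter (fun i => ¬ T ≤ 2 * M * b i), b i ≤ T / 2 := by
      rcases Nat.eq_zero_or_pos M with hM | hM
      · subst hM
        simp
        linarith
      have hM' : (0 : ℝ) < M := by exact_mod_cast hM
      have h3 : ∀ i ∈ (univ : Finset (Fin M)).filter (fun i => ¬ T ≤ 2 * M * b i),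
          b i ≤ T / (2 * M) := by
        intro i hi
        have := (Finset.mem_filter.1 hi).2
        rw [le_div_iff₀ (by positivity)]
        linarith
      refine (Finset.sum_le_card_nsmul _ _ _ h3).trans ?_
      have h4 : (((univ : Finset (Fin M)).filter (fun i => ¬ T ≤ 2 * M * b i)).card : ℝ) ≤ M := by
        have := Finset.card_filter_le (univ : Finset (Fin M)) (fun i => ¬ T ≤ 2 * M * b i)
        rw [Finset.card_univ, Fintype.card_fin] at this
        exact_mod_cast this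
      rw [nsmul_eq_mul]
      have h5 : (M : ℝ) * (T / (2 * M)) = T / 2 := by field_simp
      calc _ ≤ (M : ℝ) * (T / (2 * M)) := mul_le_mul_of_nonneg_right h4 (by positivity)
        _ = _ := h5
    have h3 : T / 2 ≤ ∑ i ∈ B, b i := by linarith
    have hne : B.Nonempty := by
      rw [Finset.nonempty_iff_ne_empty]
      intro h
      rw [h, Finset.sum_empty] at h3
      linarith
    obtain ⟨m, hm, hmax⟩ := Finset.exists_max_image B b hne
    have h4 : ∑ i ∈ B, b i ≤ B.card * b m := by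
      have := Finset.sum_le_card_nsmul B b (b m) hmax
      rwa [nsmul_eq_mul] at this
    have h5 : T ≤ 6 * k * b m := by
      have := mul_le_mul_of_nonneg_right hcard (hb m)
      linarith
    have e1 : ∏ _l : Fin k, T ^ 2 ≤ ∏ _l : Fin k, (6 * k * b m) ^ 2 :=
      Finset.prod_le_prod (fun _ _ => sq_nonneg _) (fun l _ => pow_le_pow_left₀ hT h5 2)
    have e2 : ∏ _l : Fin k, (6 * k * b m) ^ 2 =
        (6 * (k : ℝ)) ^ (2 * k) * ∏ _l : Fin k, b m ^ 2 := by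
      rw [pow_mul]
      simp only [mul_pow, Finset.prod_mul_distrib, Finset.prod_const, Finset.card_univ,
        Fintype.card_fin]
    have e3 : ∏ _l : Fin k, b m ^ 2 ≤ ∑ i : Fin M, ∏ _l : Fin k, b i ^ 2 :=
      Finset.single_le_sum (f := fun i : Fin M => ∏ _l : Fin k, b i ^ 2)
        (fun i _ => Finset.prod_nonneg fun l _ => sq_nonneg _) (Finset.mem_univ m)
    have e4 := mul_le_mul_of_nonneg_left e3 (show (0 : ℝ) ≤ (6 * (k : ℝ)) ^ (2 * k) by positivity)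
    have e5 : 0 ≤ (2 * (M : ℝ)) ^ (2 * k) * ∑ i ∈ (univ : Finset (Fin k → Fin M)).filter
      (fun i => ∀ l l' : Fin k, l < l' → (i l : ℕ) + 2 ≤ i l'), ∏ l, b (i l) ^ 2 := by positivity
    linarith

lemma Sx_split (a : ℕ → ℤ) (u L : ℕ) (θ : ℝ) : ∀ M : ℕ,
    Sx a (Ico u (u + M * L)) θ =
      ∑ i : Fin M, Sx a (Ico (u + (i : ℕ) * L) (u + ((i : ℕ) + 1) * L)) θ := by
  intro M
  rw [Finset.sum_fin_eq_sum_range]
  induction M with
  | zero => simp [Sx]
  | succ M ih =>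
    rw [Finset.sum_range_succ, dif_pos (Nat.lt_succ_self M)]
    have h1 : ∑ i ∈ range M, (if h : i < M + 1 then
        Sx a (Ico (u + ((⟨i, h⟩ : Fin (M + 1)) : ℕ) * L) (u + (((⟨i, h⟩ : Fin (M + 1)) : ℕ) + 1) * L)) θ else 0) =
        ∑ i ∈ range M, (if h : i < M then
        Sx a (Ico (u + ((⟨i, h⟩ : Fin M) : ℕ) * L) (u + (((⟨i, h⟩ : Fin M) : ℕ) + 1) * L)) θ else 0) := by
      refine Finset.sum_congr rfl fun i hi => ?_
      rw [Finset.mem_range] at hi
      rw [dif_pos hi, dif_pos (by omega)]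
    rw [h1, ← ih]
    unfold Sx
    exact (Finset.sum_Ico_consecutive _ (by omega)
      (by nlinarith [Nat.zero_le L])).symm

/-- **BG** -/
theorem t_BG : S_BG := by
  classical
  intro k M hk hM a u L
  set J := Ico u (u + M * L) with hJ
  set A : ℕ := ∑ x ∈ J, (a x).natAbs with hA
  set N : ℕ := 1 + 2 * (k * A) with hN
  have hN0 : 0 < N := by omega
  have hNR : (0 : ℝ) < N := by exact_mod_cast hN0
  have hbd : ∀ I : Fin k → Finset ℕ, (∀ l, I l ⊆ J) →
      ∀ x ∈ Fintype.piFinset I, ∀ y ∈ Fintype.piFinset I,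
      |∑ l, a (x l) - ∑ l, a (y l)| < (N : ℤ) := by
    intro I hI x hx y hy
    have h1 : ∀ x ∈ Fintype.piFinset I, |∑ l, a (x l)| ≤ (k * A : ℕ) := by
      intro x hx
      rw [Fintype.mem_piFinset] at hx
      refine (Finset.abs_sum_le_sum_abs _ _).trans ?_
      have h2 : ∀ l ∈ (univ : Finset (Fin k)), |a (x l)| ≤ (A : ℤ) := by
        intro l _
        rw [Int.abs_eq_natAbs]
        exact_mod_cast Finset.single_le_sum (f := fun x => (a x).natAbs) (fun _ _ => Nat.zero_le _)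
          (hI l (hx l))
      refine (Finset.sum_le_card_nsmul _ _ _ h2).trans ?_
      rw [Finset.card_univ, Fintype.card_fin, nsmul_eq_mul]
      push_cast
      exact le_rfl
    have h2 := h1 x hx
    have h3 := h1 y hy
    have h4 := abs_sub (∑ l, a (x l)) (∑ l, a (y l))
    rw [hN]
    push_cast at h2 h3 ⊢
    linarith
  have hsub : ∀ i : Fin M, Ico (u + (i : ℕ) * L) (u + ((i : ℕ) + 1) * L) ⊆ J := by
    intro i x hx
    rw [Finset.mem_Ico] at hx
    rw [hJ, Finset.mem_Ico]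
    have h1 : ((i : ℕ) + 1) * L ≤ M * L := Nat.mul_le_mul_right L i.2
    exact ⟨by omega, by omega⟩
  have e0 := cnt_eq a (fun _ : Fin k => J) N hN0 (hbd _ fun _ => Finset.Subset.refl _)
  have e1 : ∀ i : Fin k → Fin M, _ := fun i => cnt_eq a
    (fun l => Ico (u + (i l : ℕ) * L) (u + ((i l : ℕ) + 1) * L)) N hN0 (hbd _ fun l => hsub (i l))
  have e2 : ∀ i : Fin M, _ := fun i => cnt_eq a
    (fun _ : Fin k => Ico (u + (i : ℕ) * L) (u + ((i : ℕ) + 1) * L)) N hN0 (hbd _ fun _ => hsub i)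
  have key : ∑ j ∈ range N, ∏ _l : Fin k, ‖Sx a J ((j : ℝ) / N)‖ ^ 2 ≤
      (2 * (M : ℝ)) ^ (2 * k) * ∑ i ∈ (univ : Finset (Fin k → Fin M)).filter
        (fun i => ∀ l l' : Fin k, l < l' → (i l : ℕ) + 2 ≤ i l'),
          ∑ j ∈ range N, ∏ l, ‖Sx a (Ico (u + (i l : ℕ) * L) (u + ((i l : ℕ) + 1) * L)) ((j : ℝ) / N)‖ ^ 2 +
      (6 * (k : ℝ)) ^ (2 * k) * ∑ i : Fin M,
          ∑ j ∈ range N, ∏ _l : Fin k, ‖Sx a (Ico (u + (i : ℕ) * L) (u + ((i : ℕ) + 1) * L)) ((j : ℝ) / N)‖ ^ 2 := by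
    rw [Finset.sum_comm, Finset.sum_comm (s := (univ : Finset (Fin M))), Finset.mul_sum, Finset.mul_sum,
      ← Finset.sum_add_distrib]
    refine Finset.sum_le_sum fun j _ => ?_
    refine pw k M hk (fun i : Fin M => ‖Sx a (Ico (u + (i : ℕ) * L) (u + ((i : ℕ) + 1) * L)) ((j : ℝ) / N)‖)
      (fun i => norm_nonneg _) _ (norm_nonneg _) ?_
    rw [hJ, Sx_split]
    exact norm_sum_le _ _
  rw [e0, Finset.sum_congr rfl fun i _ => e1 i, Finset.sum_congr rfl fun i _ => e2 i,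
    ← Finset.mul_sum, ← Finset.mul_sum] at key
  have key2 : (N : ℝ) * (cnt a (fun _ : Fin k => J) : ℝ) ≤ (N : ℝ) *
      ((2 * (M : ℝ)) ^ (2 * k) * ∑ i ∈ (univ : Finset (Fin k → Fin M)).filter
      (fun i => ∀ l l' : Fin k, l < l' → (i l : ℕ) + 2 ≤ i l'),
        (cnt a (fun l => Ico (u + (i l : ℕ) * L) (u + ((i l : ℕ) + 1) * L)) : ℝ) +
    (6 * (k : ℝ)) ^ (2 * k) * ∑ i : Fin M, (cnt a (fun _ : Fin k => Ico (u + (i : ℕ) * L) (u + ((i : ℕ) + 1) * L)) : ℝ)) := by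
    refine key.trans (le_of_eq ?_)
    ring
  have key3 := le_of_mul_le_mul_left key2 hNR
  refine key3.trans (le_of_eq ?_)
  congr 2
  · exact (Finset.sum_range (fun i => (cnt a (fun _ : Fin k => Ico (u + i * L) (u + (i + 1) * L)) : ℝ))).symm

end Pool.Agent.V5helper31.SP
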